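import Pool.Agent.H985.FC.StmFC
import Pool.Agent.H985.Chow.Win
import Pool.Agent.H985.Chow.Loc
import Pool.Agent.H985.Chow.Asm

/-!
# The full Chowla conjecture over `F_q[X]`, `q` even: one class of forms (task ONE, helper401)

van der Corput's inequality in the direction of the multiples of `h / Ps`, and completion.
-/

set_option autoImplicit false
set_option linter.unusedSectionVars false

namespace Pool.Agent.H401.FC.One

open Polynomial
open Pool.Agent.H985.Chow (mob MD Wl PD PDc S_cmp)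
open Pool.Agent.H985.KP (sg PA mobg)
open Pool.Agent.H985.FC
open Pool.Agent.H985.Chow.Win (rr rr_add facs card_P finP ftP chP cop_der phi inj_aux)
open Pool.Agent.H985.Chow.Asm (card_deg window_finsum)

/-! ### General lemmas -/

/-- van der Corput's inequality -/
theorem vdC {U T : Type} [AddCommGroup U] [Fintype U] [AddCommGroup T] [Fintype T] (φ : T →+ U)
    (G : U → ℝ) :
    (∑ u, G u) ^ 2 * Fintype.card T ≤ Fintype.card U * ∑ v : T, |∑ u, G u * G (u + φ v)| := by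
  classical
  have hV : (0 : ℝ) < Fintype.card T := by exact_mod_cast Fintype.card_pos
  have e1 : (Fintype.card T : ℝ) * ∑ u, G u = ∑ u, ∑ v, G (u + φ v) := by
    have h3 : ∀ v : T, ∑ u, G u = ∑ u, G (u + φ v) := by
      intro v
      exact (Fintype.sum_equiv (Equiv.addRight (φ v)) (fun u => G (u + φ v))
        (fun u => G u) (fun u => rfl)).symm
    calc (Fintype.card T : ℝ) * ∑ u, G u = ∑ _v : T, ∑ u, G u := by
          rw [Finset.sum_const, Finset.card_univ, nsmul_eq_mul]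
      _ = ∑ v : T, ∑ u, G (u + φ v) := Finset.sum_congr rfl fun v _ => h3 v
      _ = _ := Finset.sum_comm
  have e2 : (∑ u, ∑ v, G (u + φ v)) ^ 2 ≤ Fintype.card U * ∑ u, (∑ v, G (u + φ v)) ^ 2 := by
    have := Finset.sum_mul_sq_le_sq_mul_sq (Finset.univ : Finset U) (fun _ => (1 : ℝ))
      (fun u => ∑ v, G (u + φ v))
    simpa using this
  have e3 : ∑ u, (∑ v, G (u + φ v)) ^ 2 =
      Fintype.card T * ∑ v, ∑ u, G u * G (u + φ v) := by
    have h4 : ∀ v v' : T, ∑ u, G (u + φ v) * G (u + φ v') =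
        ∑ u, G u * G (u + φ (v' - v)) := by
      intro v v'
      refine Fintype.sum_equiv (Equiv.addRight (φ v)) _ _ (fun u => ?_)
      simp only [Equiv.coe_addRight, map_sub]
      congr 2
      abel
    have h5 : ∀ v : T, ∑ v' : T, ∑ u, G u * G (u + φ (v' - v)) =
        ∑ v', ∑ u, G u * G (u + φ v') := by
      intro v
      exact Fintype.sum_equiv (Equiv.subRight v) _ _ (fun u => rfl)
    calc ∑ u, (∑ v, G (u + φ v)) ^ 2 = ∑ u, ∑ v, ∑ v', G (u + φ v) * G (u + φ v') := by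
          refine Finset.sum_congr rfl fun u _ => ?_
          rw [sq, Finset.sum_mul_sum]
      _ = ∑ v, ∑ v', ∑ u, G (u + φ v) * G (u + φ v') := by
          rw [Finset.sum_comm]
          exact Finset.sum_congr rfl fun v _ => Finset.sum_comm
      _ = ∑ v : T, ∑ v', ∑ u, G u * G (u + φ v') := by
          refine Finset.sum_congr rfl fun v _ => ?_
          rw [← h5 v]
          exact Finset.sum_congr rfl fun v' _ => h4 v v'
      _ = _ := by
          rw [Finset.sum_const, Finset.card_univ, nsmul_eq_mul]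
  have e4 : ∑ v, ∑ u, G u * G (u + φ v) ≤ ∑ v : T, |∑ u, G u * G (u + φ v)| :=
    Finset.sum_le_sum fun v _ => le_abs_self _
  have hU : (0 : ℝ) ≤ Fintype.card U := Nat.cast_nonneg _
  have e5 : ((Fintype.card T : ℝ) * ∑ u, G u) ^ 2 ≤
      (Fintype.card T : ℝ) * (Fintype.card U * ∑ v : T, |∑ u, G u * G (u + φ v)|) := by
    rw [e1]
    refine e2.trans ?_
    rw [e3]
    calc (Fintype.card U : ℝ) * (Fintype.card T * ∑ v, ∑ u, G u * G (u + φ v)) ≤
        (Fintype.card U : ℝ) * (Fintype.card T * ∑ v : T, |∑ u, G u * G (u + φ v)|) := by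
          gcongr
      _ = _ := by ring
  have e6 : (Fintype.card T : ℝ) * ((∑ u, G u) ^ 2 * Fintype.card T) ≤
      (Fintype.card T : ℝ) * (Fintype.card U * ∑ v : T, |∑ u, G u * G (u + φ v)|) := by
    refine le_trans (le_of_eq ?_) e5
    ring
  exact le_of_mul_le_mul_left e6 hV

/-- The `ℓ¹` norm of the Fourier transform of a bounded function. -/
theorem l1_bound {A : Type} [AddCommGroup A] [Fintype A] (f : A → ℂ) (hf : ∀ a, ‖f a‖ ≤ 1) :
    ∑ χ : AddChar A ℂ, ‖∑ a, f a * χ a‖ ≤ Real.sqrt (Fintype.card A) * Fintype.card A := by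
  have h1 := Finset.sum_mul_sq_le_sq_mul_sq (Finset.univ : Finset (AddChar A ℂ)) (fun _ => (1 : ℝ))
      (fun χ => ‖∑ a, f a * χ a‖)
  simp only [one_mul, one_pow, Finset.sum_const, Finset.card_univ, nsmul_eq_mul, mul_one] at h1
  rw [Pool.Agent.H985.Chow.Loc.parseval, AddChar.card_eq] at h1
  have h2 : ∑ a, ‖f a‖ ^ 2 ≤ (Fintype.card A : ℝ) := by
    refine (Finset.sum_le_sum (g := fun _ => (1 : ℝ)) fun a _ =>
      pow_le_one₀ (norm_nonneg _) (hf a)).trans ?_
    simp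
  have hA : (0 : ℝ) ≤ Fintype.card A := Nat.cast_nonneg _
  have h3 : (∑ χ : AddChar A ℂ, ‖∑ a, f a * χ a‖) ^ 2 ≤
      (Real.sqrt (Fintype.card A) * Fintype.card A) ^ 2 := by
    rw [mul_pow, Real.sq_sqrt hA]
    refine h1.trans ?_
    have : (Fintype.card A : ℝ) * (Fintype.card A * ∑ a, ‖f a‖ ^ 2) ≤
        (Fintype.card A : ℝ) * (Fintype.card A * Fintype.card A) := by gcongr
    refine this.trans (le_of_eq ?_)
    ring
  exact abs_le_of_sq_le_sq' h3 (by positivity) |>.2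

/-- The family with one more group. -/
def WW {J : Type} (V₀ : Type) (V : J → Type) : Option J → Type
  | none => V₀
  | some j => V j

instance instA {J : Type} (V₀ : Type) (V : J → Type) [AddCommGroup V₀] [∀ j, AddCommGroup (V j)] :
    ∀ o, AddCommGroup (WW V₀ V o)
  | none => inferInstanceAs (AddCommGroup V₀)
  | some j => inferInstanceAs (AddCommGroup (V j))

instance instF {J : Type} (V₀ : Type) (V : J → Type) [Fintype V₀] [∀ j, Fintype (V j)] :
    ∀ o, Fintype (WW V₀ V o)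
  | none => inferInstanceAs (Fintype V₀)
  | some j => inferInstanceAs (Fintype (V j))

/-- The homomorphisms. -/
def hh {J U : Type} (V₀ : Type) (V : J → Type) [AddCommGroup V₀] [∀ j, AddCommGroup (V j)]
    [AddCommGroup U] (φ₀ : U →+ V₀) (φ : ∀ j, U →+ V j) : ∀ o, U →+ WW V₀ V o
  | none => φ₀
  | some j => φ j

/-- The functions. -/
def gg {J : Type} (V₀ : Type) (V : J → Type) (G₀ : V₀ → ℂ) (G : ∀ j, V j → ℂ) :
    ∀ o, WW V₀ V o → ℂ
  | none => G₀
  | some j => G j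

/-- completion with one more group -/
theorem cmp_opt (hcmp : S_cmp) (J : Type) [Fintype J] [DecidableEq J] (V₀ : Type)
    [AddCommGroup V₀] [Fintype V₀] (V : J → Type) [∀ j, AddCommGroup (V j)]
    [∀ j, Fintype (V j)] (U : Type) [AddCommGroup U] [Fintype U] (φ₀ : U →+ V₀)
    (φ : ∀ j, U →+ V j) (G₀ : V₀ → ℂ) (G : ∀ j, V j → ℂ) (p : J → Prop) [DecidablePred p]
    (hinj : ∀ u, (∀ j, ¬ p j → φ j u = 0) → u = 0) (C₀ : ℝ) (C : J → ℝ) (hC₀ : 0 ≤ C₀)
    (hC : ∀ j, 0 ≤ C j)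
    (h0 : ∑ χ : AddChar V₀ ℂ, ‖∑ v, G₀ v * χ v‖ ≤ C₀ * (Fintype.card V₀ : ℝ))
    (h1 : ∀ j, ¬ p j → ∀ χ : AddChar (V j) ℂ, ‖∑ v, G j v * χ v‖ ≤ C j)
    (h2 : ∀ j, p j → ∑ χ : AddChar (V j) ℂ, ‖∑ v, G j v * χ v‖ ≤ C j * (Fintype.card (V j) : ℝ)) :
    ‖∑ u : U, G₀ (φ₀ u) * ∏ j, G j (φ j u)‖ ≤ C₀ * ∏ j, C j := by
  classical
  have key := hcmp (Option J) (WW V₀ V) U (hh V₀ V φ₀ φ) (gg V₀ V G₀ G)
    (insert none ((Finset.univ.filter p).image some)) ?_ (fun o => o.elim C₀ C) ?_ ?_ ?_ (fun o => 0)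
  · simp only [zero_add, Fintype.prod_option] at key
    exact key
  · intro u hu
    refine hinj u fun j hj => hu (some j) ?_
    rw [Finset.mem_insert, Finset.mem_image]
    rintro (h | ⟨j', hj', h⟩)
    · exact absurd h (by simp)
    · rw [Option.some_inj] at h
      rw [h, Finset.mem_filter] at hj'
      exact hj hj'.2
  · intro o
    cases o with
    | none => exact hC₀
    | some j => exact hC j
  · intro o ho
    cases o with
    | none => exact absurd (Finset.mem_insert_self _ _) ho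
    | some j =>
      intro χ
      refine h1 j (fun hp => ho ?_) χ
      exact Finset.mem_insert_of_mem (Finset.mem_image.2 ⟨j, Finset.mem_filter.2
        ⟨Finset.mem_univ _, hp⟩, rfl⟩)
  · intro o ho
    cases o with
    | none => exact h0
    | some j =>
      refine h2 j ?_
      rw [Finset.mem_insert, Finset.mem_image] at ho
      rcases ho with h | ⟨j', hj', h⟩
      · exact absurd h (by simp)
      · rw [Option.some_inj] at h
        rw [h, Finset.mem_filter] at hj'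
        exact hj'.2

/-! ### The quotient by `D` -/

section quotient

variable {K : Type} [Field K] [Fintype K]

theorem fin_quot {D : K[X]} (hD : D ≠ 0) : Module.Finite K (AdjoinRoot D) :=
  (AdjoinRoot.powerBasis hD).finite

theorem card_quot {D : K[X]} (hD : D ≠ 0) [Fintype (AdjoinRoot D)] :
    Fintype.card (AdjoinRoot D) = Fintype.card K ^ D.natDegree := by
  have := fin_quot hD
  have h := Module.card_eq_pow_finrank (K := K) (V := AdjoinRoot D)
  rw [(AdjoinRoot.powerBasis hD).finrank, AdjoinRoot.powerBasis_dim] at h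
  exact h

end quotient

/-! ### The local functions -/

section loc

open Classical in
theorem abs_sg' {F : Type*} [Field F] (x : F) : |sg x| = 1 := by
  unfold sg
  split_ifs <;> simp

open Classical in
theorem abs_gl_le {F : Type*} [Field F] (β ρ θ X Y : F) : |gl β ρ θ X Y| ≤ 1 := by
  unfold gl
  split_ifs
  · simp
  · rw [abs_sg']

/-- the product of the local functions at two points whose difference is `w` -/
noncomputable def GG {F ι : Type} [Field F] [Fintype ι] (β ρ : F) (θ κ σ : ι → F) (w : F × F)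
    (v : F × F) : ℝ :=
  ∏ i, (gl β ρ (θ i) (κ i + v.1) (σ i + v.2) *
    gl β ρ (θ i) (κ i + (v + w).1) (σ i + (v + w).2))

theorem abs_GG_le {F ι : Type} [Field F] [Fintype ι] (β ρ : F) (θ κ σ : ι → F) (w v : F × F) :
    |GG β ρ θ κ σ w v| ≤ 1 := by
  unfold GG
  rw [Finset.abs_prod]
  refine Finset.prod_le_one (fun i _ => abs_nonneg _) fun i _ => ?_
  rw [abs_mul]
  exact mul_le_one₀ (abs_gl_le _ _ _ _ _) (abs_nonneg _) (abs_gl_le _ _ _ _ _)

theorem GG_l1 {F ι : Type} [Field F] [Fintype F] [Fintype ι] (β ρ : F) (θ κ σ : ι → F)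
    (w : F × F) :
    ∑ χ : AddChar (F × F) ℂ, ‖∑ v : F × F, ((GG β ρ θ κ σ w v : ℝ) : ℂ) * χ v‖ ≤
      (Fintype.card F : ℝ) * (Fintype.card (F × F) : ℝ) := by
  refine (l1_bound (fun v : F × F => ((GG β ρ θ κ σ w v : ℝ) : ℂ)) fun v => ?_).trans
    (le_of_eq ?_)
  · rw [Complex.norm_real, Real.norm_eq_abs]
    exact abs_GG_le _ _ _ _ _ _ _
  · congr 1
    rw [Fintype.card_prod, Nat.cast_mul]
    exact Real.sqrt_mul_self (Nat.cast_nonneg _)

theorem GG_loc (hlocf : S_locf) {F ι : Type} [Field F] [Fintype F] [CharP F 2] [Fintype ι]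
    [Nonempty ι] (β ρ : F) (θ κ σ : ι → F) (w : F × F) (hβ : β ≠ 0) (hw1 : w.1 = 0)
    (hw2 : w.2 ≠ 0) (hκ : Function.Injective κ) :
    (∀ χ : AddChar (F × F) ℂ, ‖∑ v : F × F, ((GG β ρ θ κ σ w v : ℝ) : ℂ) * χ v‖ ≤
      2 * Fintype.card ι * Fintype.card F) ∧
    ∑ χ : AddChar (F × F) ℂ, ‖∑ v : F × F, ((GG β ρ θ κ σ w v : ℝ) : ℂ) * χ v‖ ≤
      (Fintype.card F : ℝ) ^ 3 / Real.sqrt 2 := by
  have h := hlocf F ι β ρ w.2 θ κ σ hβ hw2 hκ
  have e : ∀ v : F × F, GG β ρ θ κ σ w v =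
      ∏ i, (gl β ρ (θ i) (κ i + v.1) (σ i + v.2) *
        gl β ρ (θ i) (κ i + v.1) (σ i + v.2 + w.2)) := by
    intro v
    unfold GG
    refine Finset.prod_congr rfl fun i _ => ?_
    rw [Prod.fst_add, Prod.snd_add, hw1, add_zero, ← add_assoc]
  simp only [e]
  exact h

end loc

section poly

variable {K : Type} [Field K] [Fintype K] [CharP K 2]

/-- the function of the statement is a function of the reductions -/
theorem GP_eq (P : K[X]) [hP : Fact (Irreducible P)] (b g Z W : K[X]) :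
    GP b g P (Z + W) = gl (AdjoinRoot.mk P (derivative b)) (AdjoinRoot.root P)
      (AdjoinRoot.mk P (derivative g) / AdjoinRoot.mk P g)
      (AdjoinRoot.mk P Z + (rr P W).1) (AdjoinRoot.mk P (derivative Z) + (rr P W).2) := by
  unfold GP
  rw [dif_pos hP.out]
  unfold rr
  simp only
  rw [← map_add (AdjoinRoot.mk P) Z W, ← map_add (AdjoinRoot.mk P) (derivative Z) (derivative W),
    ← derivative_add]

open Classical in
theorem abs_GP_le (P b g Z : K[X]) : |Pool.Agent.H985.FC.GP b g P Z| ≤ 1 := by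
  unfold GP
  split_ifs with h
  · have := Fact.mk h
    exact abs_gl_le _ _ _ _ _
  · simp

/-- the product of the functions of the statement at `u` and `u + v` -/
theorem GG_eq {ι : Type} [Fintype ι] (P : K[X]) [hP : Fact (Irreducible P)] (b E : K[X])
    (Z g : ι → K[X]) (u v : K[X]) :
    (∏ i, GP b (g i) P (Z i + E * u)) * (∏ i, GP b (g i) P (Z i + E * (u + v))) =
      GG (AdjoinRoot.mk P (derivative b)) (AdjoinRoot.root P)
        (fun i => AdjoinRoot.mk P (derivative (g i)) / AdjoinRoot.mk P (g i))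
        (fun i => AdjoinRoot.mk P (Z i)) (fun i => AdjoinRoot.mk P (derivative (Z i)))
        (rr P (E * v)) (rr P (E * u)) := by
  unfold GG
  rw [← Finset.prod_mul_distrib]
  refine Finset.prod_congr rfl fun i _ => ?_
  rw [GP_eq, GP_eq, mul_add, rr_add]

/-- the shift at `P ≠ Ps` -/
theorem shift_loc (P : K[X]) [hP : Fact (Irreducible P)] {E h' t : K[X]} (h1 : P ∣ h')
    (h2 : ¬ P * P ∣ h') (hE : ¬ P ∣ E) (ht : ¬ P ∣ t) :
    (rr P (E * (h' * t))).1 = 0 ∧ (rr P (E * (h' * t))).2 ≠ 0 := by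
  have hp : Prime P := hP.out.prime
  unfold rr
  refine ⟨AdjoinRoot.mk_eq_zero.2 ((h1.mul_right t).mul_left E), ?_⟩
  show AdjoinRoot.mk P (derivative (E * (h' * t))) ≠ 0
  rw [Ne, AdjoinRoot.mk_eq_zero]
  intro h3
  obtain ⟨s, rfl⟩ := h1
  have e1 : derivative (E * (P * s * t)) = P * (derivative E * (s * t) +
      E * (derivative s * t + s * derivative t)) + E * (derivative P * s * t) := by
    rw [derivative_mul, derivative_mul, derivative_mul]
    ring
  rw [e1] at h3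
  have h4 : P ∣ E * (derivative P * s * t) := (dvd_add_right (Dvd.intro _ rfl)).1 h3
  rcases hp.dvd_or_dvd h4 with h5 | h5
  · exact hE h5
  rcases hp.dvd_or_dvd h5 with h6 | h6
  · rcases hp.dvd_or_dvd h6 with h7 | h7
    · exact hP.out.not_isUnit ((cop_der P).isUnit_of_dvd' dvd_rfl h7)
    · exact h2 (mul_dvd_mul_left P h7)
  · exact ht h6

/-- multiplication by `h` -/
noncomputable def mulh (h : K[X]) (L L' : ℕ) (hL : h.natDegree + L' ≤ L) :
    degreeLT K L' →+ degreeLT K L where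
  toFun v := ⟨h * v.1, by
    rw [mem_degreeLT]
    by_cases hh : h = 0
    · rw [hh, zero_mul, degree_zero]
      exact WithBot.bot_lt_coe L
    by_cases hv : v.1 = 0
    · rw [hv, mul_zero, degree_zero]
      exact WithBot.bot_lt_coe L
    have h1 := (natDegree_lt_iff_degree_lt hv).2 (mem_degreeLT.1 v.2)
    rw [← natDegree_lt_iff_degree_lt (mul_ne_zero hh hv), natDegree_mul hh hv]
    omega⟩
  map_zero' := Subtype.ext (mul_zero h)
  map_add' u v := Subtype.ext (mul_add h u.1 v.1)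

/-- reduction modulo `D` -/
noncomputable def redD (D : K[X]) (L : ℕ) : degreeLT K L →+ AdjoinRoot D :=
  (AdjoinRoot.mk D).toAddMonoidHom.comp (degreeLT K L).subtype.toAddMonoidHom

omit [Fintype K] [CharP K 2] in
/-- the sum of the degrees of the irreducible divisors -/
theorem sum_dvd {I : Finset K[X]} (hI : ∀ P ∈ I, P.Monic ∧ Irreducible P) {t : K[X]} (ht : t ≠ 0)
    [DecidablePred fun P : K[X] => P ∣ t] :
    ∑ P ∈ I with P ∣ t, P.natDegree ≤ t.natDegree := by
  have h1 : ∏ P ∈ I.filter (fun P => P ∣ t), P ∣ t := by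
    apply Finset.prod_dvd_of_coprime
    · intro P hP Q hQ hPQ
      rw [Finset.mem_coe, Finset.mem_filter] at hP hQ
      show IsCoprime P Q
      rw [(hI P hP.1).2.coprime_iff_not_dvd]
      intro hd
      exact hPQ (eq_of_monic_of_associated (hI P hP.1).1 (hI Q hQ.1).1
        ((hI P hP.1).2.associated_of_dvd (hI Q hQ.1).2 hd))
    · intro P hP
      exact (Finset.mem_filter.1 hP).2
  have h2 := natDegree_le_of_dvd h1 ht
  rwa [natDegree_prod_of_monic _ _ fun P hP => (hI P (Finset.mem_filter.1 hP).1).1] at h2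

omit [Fintype K] in
/-- characters of a group of exponent two -/
theorem chi_sq (χ : AddChar K[X] ℝ) (u : K[X]) : χ u * χ u = 1 := by
  rw [← AddChar.map_add_eq_mul]
  have h : u + u = 0 := CharTwo.add_self_eq_zero u
  rw [h, AddChar.map_zero_eq_one]

omit [Fintype K] in
theorem chi_abs (χ : AddChar K[X] ℝ) (u : K[X]) : |χ u| = 1 := by
  rcases mul_self_eq_one_iff.1 (chi_sq χ u) with h | h <;> rw [h] <;> simp

end poly

/-! ### The main theorem -/

section main

variable {K : Type} [Field K] [Fintype K] [CharP K 2]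

/-- the primes where nothing is gained -/
def bad (B : Set K[X]) (Ps t : K[X]) (P : K[X]) : Prop := P ∈ B ∨ P = Ps ∨ P ∣ t

open Classical in
/-- the local constants -/
noncomputable def cc (B : Set K[X]) (Ps t : K[X]) (y : ℝ) (N : ℕ) (P : K[X]) : ℝ :=
  if bad B Ps t P then 1 else if (P.natDegree : ℝ) ≤ y then 1 / Real.sqrt 2 else 2 * N

theorem cc_nonneg (B : Set K[X]) (Ps t : K[X]) (y : ℝ) (N : ℕ) (P : K[X]) :
    0 ≤ cc B Ps t y N P := by
  unfold cc
  split_ifs <;> positivity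

/-- a representative -/
noncomputable def rep (D : K[X]) (x : AdjoinRoot D) : K[X] :=
  Function.surjInv AdjoinRoot.mk_surjective x

theorem psi_rep {D : K[X]} {Ψ : K[X] → ℝ} (hΨ : ∀ u v, Ψ (u + D * v) = Ψ u) (u v : K[X]) :
    Ψ (rep D (AdjoinRoot.mk D u) + v) = Ψ (u + v) := by
  have h1 : AdjoinRoot.mk D (rep D (AdjoinRoot.mk D u)) = AdjoinRoot.mk D u :=
    Function.surjInv_eq AdjoinRoot.mk_surjective _
  rw [AdjoinRoot.mk_eq_mk] at h1
  obtain ⟨w, hw⟩ := h1
  have h2 : rep D (AdjoinRoot.mk D u) + v = (u + v) + D * w := by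
    rw [← hw]
    ring
  rw [h2, hΨ]

open Classical in
/-- one direction of differencing -/
theorem one_t (hlocf : S_locf) (hcmp : S_cmp) {L : ℕ} {h E b D Ps h' : K[X]} {ι : Type}
    [Fintype ι] [Nonempty ι] {Z g : ι → K[X]} {B : Set K[X]} {y : ℝ} {Ψ : K[X] → ℝ}
    (hs : Squarefree h) (hEh : IsCoprime E h)
    {I : Finset K[X]} (hI : ∀ P, P ∈ I ↔ P.Monic ∧ Irreducible P ∧ P ∣ h)
    (hp : ∏ P ∈ I, P = h) [inst : ∀ i : {P // P ∈ I}, Fact (Irreducible i.1)]
    (hb : ∀ P ∈ I, ¬ P ∣ derivative b) (hPs : h = Ps * h') (hPsI : Ps ∈ I)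
    (hZ : ∀ P ∈ I, P ∉ B → ∀ i j, i ≠ j → ¬ P ∣ Z i - Z j)
    (hD : D ≠ 0) (hΨ1 : ∀ u, |Ψ u| ≤ 1) (hΨ : ∀ u v, Ψ (u + D * v) = Ψ u)
    (hL : 1 ≤ L) {t : K[X]}
    (hwin : L + 2 * (∑ P ∈ I with (bad B Ps t P ∨ (P.natDegree : ℝ) ≤ y), P.natDegree) ≤
      2 * h.natDegree) [Fintype (degreeLT K L)] :
    |∑ u : degreeLT K L, Ψ u.1 * Ψ (u.1 + h' * t) * ∏ j : {P // P ∈ I},
      GG (AdjoinRoot.mk j.1 (derivative b)) (AdjoinRoot.root j.1)
        (fun i => AdjoinRoot.mk j.1 (derivative (g i)) / AdjoinRoot.mk j.1 (g i))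
        (fun i => AdjoinRoot.mk j.1 (Z i)) (fun i => AdjoinRoot.mk j.1 (derivative (Z i)))
        (rr j.1 (E * (h' * t))) (rr j.1 (E * u.1))| ≤
      (Fintype.card K : ℝ) ^ D.natDegree *
        ∏ P ∈ I, ((Fintype.card K : ℝ) ^ P.natDegree * cc B Ps t y (Fintype.card ι) P) := by
  have hfq := fin_quot hD
  have : Finite (AdjoinRoot D) := Module.finite_of_finite K
  let _ : Fintype (AdjoinRoot D) := Fintype.ofFinite _
  have hloc : ∀ j : {P // P ∈ I}, ¬ bad B Ps t j.1 →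
      (∀ χ : AddChar (AdjoinRoot j.1 × AdjoinRoot j.1) ℂ,
        ‖∑ v, ((GG (AdjoinRoot.mk j.1 (derivative b)) (AdjoinRoot.root j.1)
        (fun i => AdjoinRoot.mk j.1 (derivative (g i)) / AdjoinRoot.mk j.1 (g i))
        (fun i => AdjoinRoot.mk j.1 (Z i)) (fun i => AdjoinRoot.mk j.1 (derivative (Z i)))
        (rr j.1 (E * (h' * t))) v : ℝ) : ℂ) * χ v‖ ≤
          2 * Fintype.card ι * Fintype.card (AdjoinRoot j.1)) ∧
      ∑ χ : AddChar (AdjoinRoot j.1 × AdjoinRoot j.1) ℂ,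
        ‖∑ v, ((GG (AdjoinRoot.mk j.1 (derivative b)) (AdjoinRoot.root j.1)
        (fun i => AdjoinRoot.mk j.1 (derivative (g i)) / AdjoinRoot.mk j.1 (g i))
        (fun i => AdjoinRoot.mk j.1 (Z i)) (fun i => AdjoinRoot.mk j.1 (derivative (Z i)))
        (rr j.1 (E * (h' * t))) v : ℝ) : ℂ) * χ v‖ ≤
          (Fintype.card (AdjoinRoot j.1) : ℝ) ^ 3 / Real.sqrt 2 := by
    intro j hj
    have hjI := (hI j.1).1 j.2
    have hnB : j.1 ∉ B := fun h1 => hj (Or.inl h1)
    have hnP : j.1 ≠ Ps := fun h1 => hj (Or.inr (Or.inl h1))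
    have hnt : ¬ j.1 ∣ t := fun h1 => hj (Or.inr (Or.inr h1))
    have hpr : Prime j.1 := hjI.2.1.prime
    have hPsm := (hI Ps).1 hPsI
    have hdh : j.1 ∣ h' := by
      have h1 : j.1 ∣ Ps * h' := hPs ▸ hjI.2.2
      rcases hpr.dvd_or_dvd h1 with h2 | h2
      · exact absurd (eq_of_monic_of_associated hjI.1 hPsm.1
          (hjI.2.1.associated_of_dvd hPsm.2.1 h2)) hnP
      · exact h2
    have hsq : ¬ j.1 * j.1 ∣ h' := by
      intro h1
      have h2 : j.1 * j.1 ∣ h := by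
        rw [hPs]
        exact h1.mul_left Ps
      exact hjI.2.1.not_isUnit (hs j.1 h2)
    have hE : ¬ j.1 ∣ E := fun h1 => hjI.2.1.not_isUnit (hEh.isUnit_of_dvd' h1 hjI.2.2)
    have hsh := shift_loc j.1 hdh hsq hE hnt
    refine GG_loc hlocf _ _ _ _ _ _ ?_ hsh.1 hsh.2 ?_
    · rw [Ne, AdjoinRoot.mk_eq_zero]
      exact hb j.1 j.2
    · intro i i' hii
      by_contra hne
      have h1 : AdjoinRoot.mk j.1 (Z i - Z i') = 0 := by
        rw [map_sub, sub_eq_zero]
        exact hii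
      rw [AdjoinRoot.mk_eq_zero] at h1
      exact hZ j.1 j.2 hnB i i' hne h1
  have key := cmp_opt hcmp {P // P ∈ I} (AdjoinRoot D)
    (fun j => AdjoinRoot j.1 × AdjoinRoot j.1) (degreeLT K L) (redD D L)
    (fun j => phi E L j.1)
    (fun x => ((Ψ (rep D x) * Ψ (rep D x + h' * t) : ℝ) : ℂ))
    (fun j v => ((GG (AdjoinRoot.mk j.1 (derivative b)) (AdjoinRoot.root j.1)
        (fun i => AdjoinRoot.mk j.1 (derivative (g i)) / AdjoinRoot.mk j.1 (g i))
        (fun i => AdjoinRoot.mk j.1 (Z i)) (fun i => AdjoinRoot.mk j.1 (derivative (Z i)))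
        (rr j.1 (E * (h' * t))) v : ℝ) : ℂ))
    (fun j => bad B Ps t j.1 ∨ (j.1.natDegree : ℝ) ≤ y)
    (fun u hu => inj_aux hL (fun P hP => ⟨((hI P).1 hP).1, ((hI P).1 hP).2.1⟩) hp hEh
      (fun P => bad B Ps t P ∨ (P.natDegree : ℝ) ≤ y) hwin u hu)
    ((Fintype.card K : ℝ) ^ D.natDegree)
    (fun j => (Fintype.card K : ℝ) ^ j.1.natDegree * cc B Ps t y (Fintype.card ι) j.1)
    (by positivity) (fun j => mul_nonneg (by positivity) (cc_nonneg _ _ _ _ _ _)) ?_ ?_ ?_
  · rw [Finset.prod_coe_sort I (fun P : K[X] => (Fintype.card K : ℝ) ^ P.natDegree *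
      cc B Ps t y (Fintype.card ι) P)] at key
    refine le_trans (le_of_eq ?_) key
    rw [← Real.norm_eq_abs, ← Complex.norm_real]
    congr 1
    push_cast
    refine Finset.sum_congr rfl fun u _ => ?_
    have e1 : Ψ (rep D (redD D L u)) = Ψ u.1 := by
      have := psi_rep hΨ u.1 0
      rw [add_zero, add_zero] at this
      exact this
    have e2 : Ψ (rep D (redD D L u) + h' * t) = Ψ (u.1 + h' * t) := psi_rep hΨ u.1 (h' * t)
    rw [e1, e2]
    rfl
  · refine (l1_bound _ fun x => ?_).trans ?_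
    · rw [Complex.norm_real, Real.norm_eq_abs, abs_mul]
      exact mul_le_one₀ (hΨ1 _) (abs_nonneg _) (hΨ1 _)
    · have h1 : (1 : ℝ) ≤ Fintype.card (AdjoinRoot D) := by
        exact_mod_cast Fintype.card_pos
      have h2 : Real.sqrt (Fintype.card (AdjoinRoot D)) ≤ (Fintype.card K : ℝ) ^ D.natDegree := by
        have h3 : ((Fintype.card (AdjoinRoot D) : ℕ) : ℝ) = (Fintype.card K : ℝ) ^ D.natDegree := by
          rw [card_quot hD]
          push_cast
          rfl
        rw [← h3]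
        rw [Real.sqrt_le_left (by linarith)]
        nlinarith
      exact mul_le_mul_of_nonneg_right h2 (by linarith)
  · intro j hj χ
    have hj1 : ¬ bad B Ps t j.1 := fun h1 => hj (Or.inl h1)
    have hj2 : ¬ (j.1.natDegree : ℝ) ≤ y := fun h1 => hj (Or.inr h1)
    refine ((hloc j hj1).1 χ).trans (le_of_eq ?_)
    unfold cc
    rw [if_neg hj1, if_neg hj2, card_P]
    push_cast
    ring
  · intro j hj
    by_cases hj1 : bad B Ps t j.1
    · refine (GG_l1 _ _ _ _ _ _).trans (le_of_eq ?_)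
      unfold cc
      rw [if_pos hj1, mul_one, card_P]
      push_cast
      rfl
    · have hj2 : (j.1.natDegree : ℝ) ≤ y := hj.resolve_left hj1
      refine (hloc j hj1).2.trans (le_of_eq ?_)
      unfold cc
      rw [if_neg hj1, if_pos hj2, Fintype.card_prod, card_P]
      push_cast
      ring

theorem PA_eq {h : K[X]} {I : Finset K[X]}
    (hI : ∀ P, P ∈ I ↔ P.Monic ∧ Irreducible P ∧ P ∣ h) : PA h = ↑I := by
  ext P
  rw [Finset.mem_coe, hI]
  rfl

open Classical in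
theorem PD_eq {h : K[X]} {I : Finset K[X]} (y : ℝ)
    (hI : ∀ P, P ∈ I ↔ P.Monic ∧ Irreducible P ∧ P ∣ h) :
    PD h y = ↑(I.filter fun P => (P.natDegree : ℝ) ≤ y) := by
  ext P
  rw [Finset.coe_filter]
  show (P.Monic ∧ Irreducible P ∧ P ∣ h ∧ (P.natDegree : ℝ) ≤ y) ↔
    (P ∈ I ∧ (P.natDegree : ℝ) ≤ y)
  rw [hI]
  tauto

open Classical in
theorem PDc_eq {h : K[X]} {I : Finset K[X]} (y : ℝ)
    (hI : ∀ P, P ∈ I ↔ P.Monic ∧ Irreducible P ∧ P ∣ h) :
    PDc h y = ↑(I.filter fun P => ¬ (P.natDegree : ℝ) ≤ y) := by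
  ext P
  rw [Finset.coe_filter]
  show (P.Monic ∧ Irreducible P ∧ P ∣ h ∧ y < (P.natDegree : ℝ)) ↔
    (P ∈ I ∧ ¬ (P.natDegree : ℝ) ≤ y)
  rw [hI, not_le]
  tauto

open Classical in
theorem B_eq {h : K[X]} {I : Finset K[X]} {B : Set K[X]} (hB : B ⊆ PA h)
    (hI : ∀ P, P ∈ I ↔ P.Monic ∧ Irreducible P ∧ P ∣ h) :
    B = ↑(I.filter fun P => P ∈ B) := by
  ext P
  rw [Finset.coe_filter]
  show P ∈ B ↔ (P ∈ I ∧ P ∈ B)
  rw [hI]
  exact ⟨fun h1 => ⟨hB h1, h1⟩, fun h1 => h1.2⟩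

open Classical in
theorem card_bad {h : K[X]} {B : Set K[X]} {Ps t : K[X]} {m₀ : ℕ}
    {I : Finset K[X]} (hI : ∀ P, P ∈ I ↔ P.Monic ∧ Irreducible P ∧ P ∣ h)
    (hB : B ⊆ PA h) (ht : t ≠ 0) (htd : t.natDegree ≤ m₀) :
    (I.filter fun P => bad B Ps t P).card ≤ B.ncard + 1 + m₀ := by
  have h1 : (I.filter fun P => bad B Ps t P) ⊆
      ((I.filter fun P => P ∈ B) ∪ {Ps}) ∪ (I.filter fun P => P ∣ t) := by
    intro P hP
    rw [Finset.mem_filter] at hP
    rw [Finset.mem_union, Finset.mem_union, Finset.mem_filter, Finset.mem_filter,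
      Finset.mem_singleton]
    rcases hP.2 with h2 | h2 | h2
    · exact Or.inl (Or.inl ⟨hP.1, h2⟩)
    · exact Or.inl (Or.inr h2)
    · exact Or.inr ⟨hP.1, h2⟩
  have h2 : (I.filter fun P => P ∣ t).card ≤ m₀ := by
    refine le_trans ?_ ((sum_dvd (fun P hP => ⟨((hI P).1 hP).1, ((hI P).1 hP).2.1⟩) ht).trans htd)
    rw [Finset.card_eq_sum_ones]
    refine Finset.sum_le_sum fun P hP => ?_
    exact ((hI P).1 (Finset.mem_filter.1 hP).1).2.1.natDegree_pos
  have h3 : (I.filter fun P => P ∈ B).card = B.ncard := by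
    rw [← Set.ncard_coe_finset, ← B_eq hB hI]
  have h4 := (Finset.card_le_card h1).trans (Finset.card_union_le _ _)
  have h5 := Finset.card_union_le (I.filter fun P => P ∈ B) {Ps}
  rw [Finset.card_singleton] at h5
  omega

open Classical in
/-- the product of the local constants -/
theorem prod_cc {h : K[X]} {y : ℝ} {B : Set K[X]} {Ps t : K[X]} {N m₀ : ℕ} (hN : 1 ≤ N)
    {I : Finset K[X]} (hI : ∀ P, P ∈ I ↔ P.Monic ∧ Irreducible P ∧ P ∣ h)
    (hp : ∏ P ∈ I, P = h) (hB : B ⊆ PA h) (ht : t ≠ 0) (htd : t.natDegree ≤ m₀) :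
    ∏ P ∈ I, ((Fintype.card K : ℝ) ^ P.natDegree * cc B Ps t y N P) ≤
      (Fintype.card K : ℝ) ^ h.natDegree * ((2 * N : ℝ) ^ (PDc h y).ncard *
        (1 / Real.sqrt 2) ^ ((PD h y).ncard - 1 - B.ncard - m₀)) := by
  have h6 : h.natDegree = ∑ P ∈ I, P.natDegree := by
    rw [← hp]
    exact natDegree_prod_of_monic _ _ fun P hP => ((hI P).1 hP).1
  rw [Finset.prod_mul_distrib, Finset.prod_pow_eq_pow_sum, ← h6]
  refine mul_le_mul_of_nonneg_left ?_ (by positivity)
  have hN' : (1 : ℝ) ≤ 2 * N := by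
    have : (1 : ℝ) ≤ N := by exact_mod_cast hN
    linarith
  have hs1 : 1 / Real.sqrt 2 ≤ 1 := by
    rw [div_le_one (by positivity)]
    exact Real.one_le_sqrt.mpr (by norm_num)
  have h1 : ∏ P ∈ I, cc B Ps t y N P ≤ ∏ P ∈ I, (if (P.natDegree : ℝ) ≤ y then
      (if bad B Ps t P then 1 else 1 / Real.sqrt 2) else (2 * N : ℝ)) := by
    refine Finset.prod_le_prod (fun P _ => cc_nonneg _ _ _ _ _ _) fun P _ => ?_
    unfold cc
    split_ifs
    · exact le_rfl
    · exact hN'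
    · exact le_rfl
    · exact le_rfl
  refine h1.trans ?_
  rw [Finset.prod_ite, Finset.prod_const, Finset.prod_ite, Finset.prod_const, Finset.prod_const,
    one_pow, one_mul, mul_comm, PDc_eq y hI, PD_eq y hI, Set.ncard_coe_finset,
    Set.ncard_coe_finset]
  refine mul_le_mul_of_nonneg_left ?_ (by positivity)
  refine pow_le_pow_of_le_one (by positivity) hs1 ?_
  have h2 := card_bad (Ps := Ps) hI hB ht htd
  have h3 := Finset.card_filter_add_card_filter_not (s := I.filter fun P => (P.natDegree : ℝ) ≤ y)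
    (fun P => bad B Ps t P)
  have h4 : ((I.filter fun P => (P.natDegree : ℝ) ≤ y).filter fun P => bad B Ps t P).card ≤
      (I.filter fun P => bad B Ps t P).card :=
    Finset.card_le_card (Finset.filter_subset_filter _ (Finset.filter_subset _ _))
  omega

open Classical in
theorem sum_bad {h : K[X]} {y : ℝ} {B : Set K[X]} {Ps t : K[X]} {m₀ : ℕ}
    {I : Finset K[X]} (hI : ∀ P, P ∈ I ↔ P.Monic ∧ Irreducible P ∧ P ∣ h)
    (hB : B ⊆ PA h) (ht : t ≠ 0) (htd : t.natDegree ≤ m₀) (hPs : Ps ∈ I) :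
    ∑ P ∈ I with (bad B Ps t P ∨ (P.natDegree : ℝ) ≤ y), P.natDegree ≤
      (∑ᶠ P ∈ PD h y, P.natDegree) + (∑ᶠ P ∈ B, P.natDegree) + Ps.natDegree + m₀ := by
  have h1 : ∑ᶠ P ∈ PD h y, P.natDegree = ∑ P ∈ I with (P.natDegree : ℝ) ≤ y, P.natDegree := by
    rw [PD_eq y hI, finsum_mem_coe_finset]
  have h2 : ∑ᶠ P ∈ B, P.natDegree = ∑ P ∈ I with P ∈ B, P.natDegree := by
    rw [finsum_mem_congr (B_eq hB hI) (fun P _ => rfl), finsum_mem_coe_finset]
  have h3 : ∑ P ∈ I with P ∣ t, P.natDegree ≤ m₀ :=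
    (sum_dvd (fun P hP => ⟨((hI P).1 hP).1, ((hI P).1 hP).2.1⟩) ht).trans htd
  have h4 : Ps.natDegree = ∑ P ∈ I with P = Ps, P.natDegree := by
    rw [Finset.filter_eq' I Ps, if_pos hPs, Finset.sum_singleton]
  rw [h1, h2]
  refine le_trans ?_ (Nat.add_le_add_left h3 _)
  rw [h4, Finset.sum_filter, Finset.sum_filter, Finset.sum_filter, Finset.sum_filter,
    Finset.sum_filter, ← Finset.sum_add_distrib, ← Finset.sum_add_distrib,
    ← Finset.sum_add_distrib]
  refine Finset.sum_le_sum fun P _ => ?_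
  by_cases h5 : (P.natDegree : ℝ) ≤ y
  · rw [if_pos (Or.inr h5), if_pos h5]
    omega
  · by_cases h6 : bad B Ps t P
    · rw [if_pos (Or.inl h6)]
      rcases h6 with h7 | h7 | h7
      · rw [if_pos h7]
        omega
      · rw [if_pos h7]
        omega
      · rw [if_pos h7]
        omega
    · rw [if_neg (not_or.2 ⟨h6, h5⟩)]
      exact Nat.zero_le _

/-- the function of the window -/
noncomputable def ff {ι : Type} [Fintype ι] (I : Finset K[X]) (b E : K[X]) (Z g : ι → K[X])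
    (Ψ : K[X] → ℝ) (χ : AddChar K[X] ℝ) (u : K[X]) : ℝ :=
  χ u * Ψ u * ∏ P ∈ I, ∏ i, Pool.Agent.H985.FC.GP b (g i) P (Z i + E * u)

theorem ff_abs {ι : Type} [Fintype ι] (I : Finset K[X]) (b E : K[X]) (Z g : ι → K[X])
    {Ψ : K[X] → ℝ} (χ : AddChar K[X] ℝ) (hΨ1 : ∀ u, |Ψ u| ≤ 1) (u : K[X]) :
    |ff I b E Z g Ψ χ u| ≤ 1 := by
  unfold ff
  rw [abs_mul, abs_mul, chi_abs, one_mul, Finset.abs_prod]
  refine mul_le_one₀ (hΨ1 u) (Finset.prod_nonneg fun _ _ => abs_nonneg _) ?_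
  refine Finset.prod_le_one (fun i _ => abs_nonneg _) fun P _ => ?_
  rw [Finset.abs_prod]
  exact Finset.prod_le_one (fun i _ => abs_nonneg _) fun i _ => abs_GP_le _ _ _ _

theorem ff_mul {ι : Type} [Fintype ι] {I : Finset K[X]}
    [inst : ∀ i : {P // P ∈ I}, Fact (Irreducible i.1)] (b E : K[X]) (Z g : ι → K[X])
    (Ψ : K[X] → ℝ) (χ : AddChar K[X] ℝ) (u v : K[X]) :
    ff I b E Z g Ψ χ u * ff I b E Z g Ψ χ (u + v) = χ v * (Ψ u * Ψ (u + v) *
      ∏ j : {P // P ∈ I}, GG (AdjoinRoot.mk j.1 (derivative b)) (AdjoinRoot.root j.1)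
        (fun i => AdjoinRoot.mk j.1 (derivative (g i)) / AdjoinRoot.mk j.1 (g i))
        (fun i => AdjoinRoot.mk j.1 (Z i)) (fun i => AdjoinRoot.mk j.1 (derivative (Z i)))
        (rr j.1 (E * v)) (rr j.1 (E * u))) := by
  have h1 : ∏ j : {P // P ∈ I}, GG (AdjoinRoot.mk j.1 (derivative b)) (AdjoinRoot.root j.1)
        (fun i => AdjoinRoot.mk j.1 (derivative (g i)) / AdjoinRoot.mk j.1 (g i))
        (fun i => AdjoinRoot.mk j.1 (Z i)) (fun i => AdjoinRoot.mk j.1 (derivative (Z i)))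
        (rr j.1 (E * v)) (rr j.1 (E * u)) =
      (∏ P ∈ I, ∏ i, Pool.Agent.H985.FC.GP b (g i) P (Z i + E * u)) *
        ∏ P ∈ I, ∏ i, Pool.Agent.H985.FC.GP b (g i) P (Z i + E * (u + v)) := by
    rw [← Finset.prod_mul_distrib, ← Finset.prod_coe_sort I (fun P : K[X] =>
      (∏ i, Pool.Agent.H985.FC.GP b (g i) P (Z i + E * u)) *
        ∏ i, Pool.Agent.H985.FC.GP b (g i) P (Z i + E * (u + v)))]
    exact Finset.prod_congr rfl fun j _ => (GG_eq j.1 b E Z g u v).symm
  rw [h1]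
  unfold ff
  rw [AddChar.map_add_eq_mul]
  have h2 := chi_sq χ u
  linear_combination (χ v * Ψ u * Ψ (u + v) *
    (∏ P ∈ I, ∏ i, Pool.Agent.H985.FC.GP b (g i) P (Z i + E * u)) *
      ∏ P ∈ I, ∏ i, Pool.Agent.H985.FC.GP b (g i) P (Z i + E * (u + v))) * h2

open Classical in
/-- **Task ONE** -/
theorem one (hlocf : S_locf) (hcmp : S_cmp) : S_one := by
  intro K _ _ _ L m₀ h E b D Ps ι _ _ Z g B y Ψ χ hm hs hEh hb hPs hPsd hmL hB hZ hD hΨ1 hΨ hwin
  obtain ⟨I, hI, hp⟩ := facs hm hs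
  have inst : ∀ i : {P // P ∈ I}, Fact (Irreducible i.1) := fun i => ⟨((hI i.1).1 i.2).2.1⟩
  have hPsI : Ps ∈ I := (hI Ps).2 hPs
  have hPA : PA h = ↑I := PA_eq hI
  obtain ⟨h', hh'⟩ := hPs.2.2
  have hPs0 : Ps ≠ 0 := hPs.1.ne_zero
  have hh'0 : h' ≠ 0 := by
    rintro rfl
    rw [mul_zero] at hh'
    exact hm.ne_zero hh'
  have hnd : h.natDegree = Ps.natDegree + h'.natDegree := by
    rw [hh', natDegree_mul hPs0 hh'0]
  have hdeg : h'.natDegree + m₀ ≤ L := by omega
  have hq : (0 : ℝ) < Fintype.card K := by exact_mod_cast Fintype.card_pos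
  have hq1 : (1 : ℝ) ≤ Fintype.card K := by exact_mod_cast Fintype.card_pos
  have hsum : ∑ᶠ u ∈ {u : K[X] | u.degree < (L : WithBot ℕ)},
        χ u * Ψ u * ∏ᶠ P ∈ PA h, ∏ i, Pool.Agent.H985.FC.GP b (g i) P (Z i + E * u) =
      ∑ u : degreeLT K L, ff I b E Z g Ψ χ u.1 := by
    rw [window_finsum]
    refine Finset.sum_congr rfl fun u _ => ?_
    rw [hPA, finprod_mem_coe_finset]
    rfl
  rw [hsum]
  set M : ℝ := (Fintype.card K : ℝ) ^ (2 * D.natDegree + h.natDegree) *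
    (2 * Fintype.card ι : ℝ) ^ (PDc h y).ncard *
    (1 / Real.sqrt 2) ^ ((PD h y).ncard - 1 - B.ncard - m₀) with hM
  have hM0 : 0 ≤ M := by positivity
  -- the bound for one `t`
  have hone : ∀ v : degreeLT K m₀, |∑ u : degreeLT K L, ff I b E Z g Ψ χ u.1 *
      ff I b E Z g Ψ χ (u + mulh h' L m₀ hdeg v : degreeLT K L).1| ≤
        (if v = 0 then (Fintype.card K : ℝ) ^ L else 0) + M := by
    intro v
    by_cases hv : v = 0
    · rw [if_pos hv]
      refine le_add_of_le_of_nonneg ?_ hM0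
      refine (Finset.abs_sum_le_sum_abs _ _).trans ?_
      refine (Finset.sum_le_sum (g := fun _ => (1 : ℝ)) fun u _ => ?_).trans (le_of_eq ?_)
      · rw [abs_mul]
        exact mul_le_one₀ (ff_abs _ _ _ _ _ _ hΨ1 _) (abs_nonneg _) (ff_abs _ _ _ _ _ _ hΨ1 _)
      · rw [Finset.sum_const, Finset.card_univ, card_deg, nsmul_eq_mul, mul_one]
        push_cast
        rfl
    · rw [if_neg hv, zero_add]
      have ht : v.1 ≠ 0 := fun h1 => hv (Subtype.ext h1)
      have htd : v.1.natDegree < m₀ := (natDegree_lt_iff_degree_lt ht).2 (mem_degreeLT.1 v.2)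
      have e1 : ∑ u : degreeLT K L, ff I b E Z g Ψ χ u.1 *
          ff I b E Z g Ψ χ (u + mulh h' L m₀ hdeg v : degreeLT K L).1 =
          χ (h' * v.1) * ∑ u : degreeLT K L, Ψ u.1 * Ψ (u.1 + h' * v.1) *
            ∏ j : {P // P ∈ I},
            GG (AdjoinRoot.mk j.1 (derivative b)) (AdjoinRoot.root j.1)
              (fun i => AdjoinRoot.mk j.1 (derivative (g i)) / AdjoinRoot.mk j.1 (g i))
              (fun i => AdjoinRoot.mk j.1 (Z i))
              (fun i => AdjoinRoot.mk j.1 (derivative (Z i)))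
              (rr j.1 (E * (h' * v.1))) (rr j.1 (E * u.1)) := by
        rw [Finset.mul_sum]
        exact Finset.sum_congr rfl fun u _ => ff_mul b E Z g Ψ χ u.1 (h' * v.1)
      rw [e1, abs_mul, chi_abs, one_mul]
      have hb' : ∀ P ∈ I, ¬ P ∣ derivative b := fun P hP => hb P ((hI P).1 hP)
      have hZ' : ∀ P ∈ I, P ∉ B → ∀ i j, i ≠ j → ¬ P ∣ Z i - Z j :=
        fun P hP => hZ P ((hI P).1 hP)
      have hsb := sum_bad (y := y) (B := B) hI hB ht htd.le hPsI
      refine (one_t hlocf hcmp hs hEh hI hp hb' hh' hPsI hZ' hD hΨ1 hΨ (by omega)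
        (B := B) (y := y) (by omega)).trans ?_
      have hpc := prod_cc (y := y) (N := Fintype.card ι) (Ps := Ps) Fintype.card_pos hI hp hB ht
        htd.le
      refine (mul_le_mul_of_nonneg_left hpc (by positivity)).trans ?_
      rw [hM, ← mul_assoc, ← pow_add, ← mul_assoc]
      refine mul_le_mul_of_nonneg_right (mul_le_mul_of_nonneg_right
        (pow_le_pow_right₀ hq1 (by omega)) (by positivity)) (by positivity)
  have key := vdC (mulh h' L m₀ hdeg) (fun u : degreeLT K L => ff I b E Z g Ψ χ u.1)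
  rw [card_deg, card_deg] at key
  push_cast at key
  have h1 : ∑ v : degreeLT K m₀, |∑ u : degreeLT K L, ff I b E Z g Ψ χ u.1 *
      ff I b E Z g Ψ χ (u + mulh h' L m₀ hdeg v : degreeLT K L).1| ≤
        (Fintype.card K : ℝ) ^ L + (Fintype.card K : ℝ) ^ m₀ * M := by
    refine (Finset.sum_le_sum fun v _ => hone v).trans (le_of_eq ?_)
    rw [Finset.sum_add_distrib, Finset.sum_ite_eq' Finset.univ (0 : degreeLT K m₀),
      if_pos (Finset.mem_univ _), Finset.sum_const, Finset.card_univ, card_deg, nsmul_eq_mul]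
    push_cast
    rfl
  have h2 := key.trans (mul_le_mul_of_nonneg_left h1 (by positivity))
  have hqL : (0 : ℝ) < (Fintype.card K : ℝ) ^ L := by positivity
  have hqm : (0 : ℝ) < (Fintype.card K : ℝ) ^ m₀ := by positivity
  have h3 : (Fintype.card K : ℝ) ^ (2 * L) * (1 / (Fintype.card K : ℝ) ^ m₀ +
        (Fintype.card K : ℝ) ^ (2 * D.natDegree + h.natDegree) / (Fintype.card K : ℝ) ^ L *
          (2 * Fintype.card ι : ℝ) ^ (PDc h y).ncard *
          (1 / Real.sqrt 2) ^ ((PD h y).ncard - 1 - B.ncard - m₀)) =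
      ((Fintype.card K : ℝ) ^ L * ((Fintype.card K : ℝ) ^ L + (Fintype.card K : ℝ) ^ m₀ * M)) /
        (Fintype.card K : ℝ) ^ m₀ := by
    rw [hM, two_mul L, pow_add]
    field_simp
  rw [h3, le_div_iff₀ hqm]
  exact h2

end main

end Pool.Agent.H401.FC.One
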